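import Mathlib
import Pool.Agent.helper73.TC.CeCore

/-!
# Reading kernel checks (lemmas)

Used for `MP_a50e43_gt` (tight polyhedral embedding of complex projective 3-space).
-/

set_option autoImplicit false

namespace Pool.Agent.helper73.TC

theorem Ce.allN_iff (n : ℕ) (f : ℕ → Bool) : Ce.allN n f = true ↔ ∀ i < n, f i = true := by
  induction n with
  | zero => simp [Ce.allN]
  | succ n ih =>
    have h : Ce.allN (n + 1) f = @Bool.rec (fun _ => Bool) false (Ce.allN n f) (f n) := rfl
    rw [h]
    cases hf : f n with
    | false =>
      simp only [Bool.false_eq_true, false_iff, not_forall]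
      exact ⟨n, Nat.lt_succ_self n, by simp [hf]⟩
    | true =>
      show Ce.allN n f = true ↔ _
      rw [ih]
      constructor
      · intro h i hi
        rcases Nat.lt_succ_iff_lt_or_eq.mp hi with h' | rfl
        · exact h i h'
        · exact hf
      · intro h i hi
        exact h i (Nat.lt_succ_of_lt hi)

theorem Ce.all7_iff (f : ℕ → Bool) : Ce.all7 f = true ↔ ∀ i < 7, f i = true :=
  Ce.allN_iff 7 f

/-- the recursor of `Bool`, as used in the checkers -/
theorem Ce.brec_iff (a b c : Bool) :
    @Bool.rec (fun _ => Bool) a b c = true ↔ (c = true → b = true) ∧ (c = false → a = true) := by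
  cases c <;> simp

theorem Ce.brec_true_iff (b c : Bool) :
    @Bool.rec (fun _ => Bool) true b c = true ↔ (c = true → b = true) := by
  cases c <;> simp

theorem Ce.brec_false_iff (b c : Bool) :
    @Bool.rec (fun _ => Bool) false b c = true ↔ c = true ∧ b = true := by
  cases c <;> simp

theorem Ce.and_iff (a b : Bool) : Bool.and a b = true ↔ a = true ∧ b = true := by
  cases a <;> simp

theorem Ce.or_iff (a b : Bool) : Bool.or a b = true ↔ a = true ∨ b = true := by
  cases a <;> simp

theorem Ce.not_iff (a : Bool) : Bool.not a = true ↔ a = false := by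
  cases a <;> simp

theorem Ce.beq_iff (a b : ℕ) : Nat.beq a b = true ↔ a = b := by
  rw [Nat.beq_eq]

theorem Ce.ble_iff (a b : ℕ) : Nat.ble a b = true ↔ a ≤ b := by
  rw [Nat.ble_eq]

theorem Ce.blt_iff (a b : ℕ) : Nat.blt a b = true ↔ a < b := by
  rw [Nat.blt_eq]

/-- a loop over a list, as used in the checkers -/
theorem Ce.lrec_iff {α : Type} (f : α → Bool) (l : List α) :
    @List.rec α (fun _ => Bool) true (fun v _ ih => @Bool.rec (fun _ => Bool) false ih (f v)) l = true ↔
      ∀ v ∈ l, f v = true := by
  induction l with
  | nil => simp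
  | cons v l ih =>
    show @Bool.rec (fun _ => Bool) false _ (f v) = true ↔ _
    rw [Ce.brec_false_iff, ih]
    simp

/-- an indexed loop over a list, as used in the checkers -/
theorem Ce.lreck_iff {α : Type} (f : α → ℕ → Bool) (l : List α) (k : ℕ) :
    @List.rec α (fun _ => ℕ → Bool) (fun _ => true)
      (fun v _ ih k => @Bool.rec (fun _ => Bool) false (ih (Nat.succ k)) (f v k)) l k = true ↔
      ∀ j (hj : j < l.length), f l[j] (k + j) = true := by
  induction l generalizing k with
  | nil => simp
  | cons v l ih =>
    show @Bool.rec (fun _ => Bool) false _ (f v k) = true ↔ _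
    rw [Ce.brec_false_iff, ih]
    constructor
    · rintro ⟨h1, h2⟩ j hj
      cases j with
      | zero => exact h1
      | succ j =>
        have := h2 j (by simpa using hj)
        rw [Nat.succ_eq_add_one, Nat.add_assoc, Nat.add_comm 1 j] at this
        exact this
    · intro h
      refine ⟨h 0 (by simp), fun j hj => ?_⟩
      have := h (j + 1) (by simpa using hj)
      rw [Nat.succ_eq_add_one, Nat.add_assoc, Nat.add_comm 1 j]
      exact this

end Pool.Agent.helper73.TC
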