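import Mathlib
import Pool.Agent.helper73.TC.XData
import Pool.Agent.helper74.TC.Refl

/-!
# The tables of points, group action and quotient map

Used for `MP_a50e43_gt` (tight polyhedral embedding of complex projective 3-space).
-/

set_option autoImplicit false

noncomputable section
namespace Pool.Agent.helper73.TC
open Ce

/-- what the check of the tables says -/
structure Ce.TabOK (T : Tab) : Prop where
  pm_eq : ∀ v < 124, pm T v = Nat.lor (Nat.lor (Nat.lor (Nat.pow 2 (idx T v 0)) (Nat.pow 2 (idx T v 1)))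
          (Nat.lor (Nat.pow 2 (idx T v 2)) (Nat.pow 2 (idx T v 3))))
          (Nat.lor (Nat.pow 2 (idx T v 4)) (Nat.pow 2 (idx T v 5)))
  idx_div : ∀ v < 124, ∀ t < 6, idx T v t / 4 = t / 2
  act_lt : ∀ v < 124, ∀ g < 6, act T g v < 124
  qv_act : ∀ v < 124, ∀ g < 6, qv T (act T g v) = qv T v
  idx_act : ∀ v < 124, ∀ g < 6, ∀ i < 3, ∀ e < 2,
    idx T (act T g v) (2 * i + e) + 4 * prm g i = idx T v (2 * prm g i + e) + 4 * i
  act_act : ∀ v < 124, ∀ g < 6, ∀ h < 6, ∀ k < 6, (∀ i < 3, prm h (prm g i) = prm k i) →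
    act T g (act T h v) = act T k v
  act_zero : ∀ v < 124, act T 0 v = v
  qv_lt : ∀ v < 124, qv T v < 30
  ty_le : ∀ v < 124, ent T.TY 2 v ≤ 2
  ty_eq : ∀ v < 124, ∀ w < 124, qv T v = qv T w → ent T.TY 2 v = ent T.TY 2 w
  ty_two : ∀ v < 124, ∀ w < 124, qv T v = qv T w → ent T.TY 2 v = 2 → v = w

theorem Ce.tabOK_of (T : Tab) (hT : chkTab T = true) : TabOK T := by
  unfold chkTab at hT
  simp only [allN_iff, and_iff, beq_iff, blt_iff, ble_iff, brec_true_iff] at hT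
  constructor
  · intro v hv; exact (hT v hv).1.1
  · intro v hv; exact (hT v hv).1.2
  · intro v hv g hg; exact ((hT v hv).2.1 g hg).1
  · intro v hv g hg; exact ((hT v hv).2.1 g hg).2.1
  · intro v hv g hg; exact ((hT v hv).2.1 g hg).2.2.1
  · intro v hv g hg h hh k hk; exact ((hT v hv).2.1 g hg).2.2.2 h hh k hk
  · intro v hv; exact (hT v hv).2.2.1
  · intro v hv; exact (hT v hv).2.2.2.1.1
  · intro v hv; exact (hT v hv).2.2.2.1.2
  · intro v hv w hw h; exact ((hT v hv).2.2.2.2 w hw h).1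
  · intro v hv w hw h; exact ((hT v hv).2.2.2.2 w hw h).2

theorem Ce.tabOK : TabOK tab := tabOK_of tab chkTab_ok

theorem Ce.pnum_lt (g : Equiv.Perm (Fin 3)) : pnum g < 6 := by
  unfold pnum
  split_ifs <;> norm_num

theorem Ce.prm_pnum : ∀ (g : Equiv.Perm (Fin 3)) (i : Fin 3), prm (pnum g) i = (g i : ℕ) := by
  decide

theorem Ce.pnum_one : pnum 1 = 0 := by decide

/-- every number below six is the number of a permutation -/
theorem Ce.exists_pnum : ∀ k < 6, ∃ g : Equiv.Perm (Fin 3), pnum g = k := by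
  decide

theorem Ce.rho_val (g : Equiv.Perm (Fin 3)) (v : Fin 124) : ((rho g v : Fin 124) : ℕ) = act tab (pnum g) v := by
  show act tab (pnum g) v % 124 = _
  exact Nat.mod_eq_of_lt (tabOK.act_lt v v.2 _ (pnum_lt g))

theorem Ce.qq_val (v : Fin 124) : ((qq v : Fin 30) : ℕ) = qv tab v := by
  show qv tab v % 30 = _
  exact Nat.mod_eq_of_lt (tabOK.qv_lt v v.2)

theorem Ce.qq_eq_iff (v w : Fin 124) : qq v = qq w ↔ qv tab v = qv tab w := by
  rw [← qq_val, ← qq_val, Fin.ext_iff]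

theorem Ce.rho_rho (g h : Equiv.Perm (Fin 3)) (v : Fin 124) : rho g (rho h v) = rho (h * g) v := by
  apply Fin.ext
  rw [rho_val, rho_val, rho_val]
  apply tabOK.act_act v v.2 _ (pnum_lt g) _ (pnum_lt h) _ (pnum_lt _)
  intro i hi
  have h1 := prm_pnum g ⟨i, hi⟩
  have h2 := prm_pnum h (g ⟨i, hi⟩)
  have h3 := prm_pnum (h * g) ⟨i, hi⟩
  simp only at h1 h2 h3
  rw [h1, h2, h3]
  rfl

theorem Ce.rho_one (v : Fin 124) : rho 1 v = v := by
  apply Fin.ext
  rw [rho_val, pnum_one, tabOK.act_zero v v.2]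

theorem Ce.idx_rho (g : Equiv.Perm (Fin 3)) (v : Fin 124) (i : Fin 3) (e : ℕ) (he : e < 2) :
    idx tab (rho g v) (2 * (i : ℕ) + e) + 4 * (g i : ℕ) = idx tab v (2 * (g i : ℕ) + e) + 4 * (i : ℕ) := by
  rw [rho_val]
  have h := tabOK.idx_act v v.2 (pnum g) (pnum_lt g) i i.2 e he
  rw [prm_pnum] at h
  exact h

theorem Ce.exists_idx (v : Fin 124) (i : Fin 3) (e : ℕ) (he : e < 2) :
    ∃ r : Fin 4, idx tab v (2 * (i : ℕ) + e) = 4 * (i : ℕ) + (r : ℕ) := by
  have h := tabOK.idx_div v v.2 (2 * (i : ℕ) + e) (by have := i.2; omega)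
  generalize idx tab v (2 * (i : ℕ) + e) = n at h
  refine ⟨⟨n % 4, Nat.mod_lt _ (by norm_num)⟩, ?_⟩
  show n = 4 * (i : ℕ) + n % 4
  omega

theorem PP_nonneg (v : Fin 124) (i : Fin 3) (j : Fin 4) : 0 ≤ PP v i j := by
  unfold PP
  split_ifs <;> norm_num

theorem PP_sum (v : Fin 124) (i : Fin 3) : ∑ j, PP v i j = 1 := by
  obtain ⟨r, hr⟩ := exists_idx v i 0 (by norm_num)
  obtain ⟨s, hs⟩ := exists_idx v i 1 (by norm_num)
  rw [Nat.add_zero] at hr
  unfold PP
  rw [hr, hs]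
  rw [← Finset.sum_div, Finset.sum_add_distrib]
  have key : ∀ r : Fin 4, ∑ j : Fin 4, (if 4 * (i : ℕ) + (r : ℕ) = 4 * (i : ℕ) + (j : ℕ) then (1 : ℝ) else 0) = 1 := by
    intro r
    have h : ∀ j : Fin 4, (4 * (i : ℕ) + (r : ℕ) = 4 * (i : ℕ) + (j : ℕ)) ↔ r = j := by
      intro j
      rw [Nat.add_left_cancel_iff, Fin.ext_iff]
    simp only [h]
    simp
  rw [key, key]
  norm_num

theorem rho_inj (g : Equiv.Perm (Fin 3)) : Function.Injective (rho g) := by
  intro v w h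
  have h' := congrArg (rho g⁻¹) h
  rw [rho_rho, rho_rho, mul_inv_cancel, rho_one, rho_one] at h'
  exact h'

theorem rho_PP (g : Equiv.Perm (Fin 3)) (v : Fin 124) (i : Fin 3) (j : Fin 4) :
    PP (rho g v) i j = PP v (g i) j := by
  have h0 := idx_rho g v i 0 (by norm_num)
  have h1 := idx_rho g v i 1 (by norm_num)
  rw [Nat.add_zero, Nat.add_zero] at h0
  unfold PP
  have e0 : idx tab (rho g v) (2 * (i : ℕ)) = 4 * (i : ℕ) + (j : ℕ) ↔
      idx tab v (2 * (g i : ℕ)) = 4 * (g i : ℕ) + (j : ℕ) := by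
    generalize idx tab (rho g v) (2 * (i : ℕ)) = a at h0 ⊢
    generalize idx tab v (2 * (g i : ℕ)) = b at h0 ⊢
    omega
  have e1 : idx tab (rho g v) (2 * (i : ℕ) + 1) = 4 * (i : ℕ) + (j : ℕ) ↔
      idx tab v (2 * (g i : ℕ) + 1) = 4 * (g i : ℕ) + (j : ℕ) := by
    generalize idx tab (rho g v) (2 * (i : ℕ) + 1) = a at h1 ⊢
    generalize idx tab v (2 * (g i : ℕ) + 1) = b at h1 ⊢
    omega
  simp only [e0, e1]

theorem qq_rho (g : Equiv.Perm (Fin 3)) (v : Fin 124) : qq (rho g v) = qq v := by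
  rw [qq_eq_iff, rho_val]
  exact tabOK.qv_act v v.2 _ (pnum_lt g)

theorem Ce.half_pos_iff (p q : Prop) [Decidable p] [Decidable q] :
    0 < (((if p then 1 else 0) + (if q then 1 else 0) : ℝ) / 2) ↔ p ∨ q := by
  by_cases hp : p <;> by_cases hq : q <;> simp [hp, hq]

/-- the coordinates of a vertex are positive exactly on the mask -/
theorem Ce.PP_pos_iff (v : Fin 124) (i : Fin 3) (j : Fin 4) :
    0 < PP v i j ↔ (pm tab v).testBit (4 * (i : ℕ) + (j : ℕ)) = true := by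
  have hpm := tabOK.pm_eq v v.2
  have hd : ∀ t < 6, idx tab v t / 4 = t / 2 := tabOK.idx_div v v.2
  have h0 := hd 0 (by norm_num)
  have h1 := hd 1 (by norm_num)
  have h2 := hd 2 (by norm_num)
  have h3 := hd 3 (by norm_num)
  have h4 := hd 4 (by norm_num)
  have h5 := hd 5 (by norm_num)
  rw [hpm]
  have key : ∀ a b : ℕ, (Nat.pow 2 a).testBit b = true ↔ a = b := by
    intro a b
    show (2 ^ a).testBit b = true ↔ a = b
    rw [Nat.testBit_two_pow]
    simp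
  have kor : ∀ a b c : ℕ, (Nat.lor a b).testBit c = true ↔ a.testBit c = true ∨ b.testBit c = true := by
    intro a b c
    show (a ||| b).testBit c = true ↔ _
    rw [Nat.testBit_or]
    simp
  simp only [kor, key]
  unfold PP
  rw [half_pos_iff]
  obtain ⟨j, hj⟩ := j
  obtain ⟨i, hi⟩ := i
  show idx tab v (2 * i) = 4 * i + j ∨ idx tab v (2 * i + 1) = 4 * i + j ↔ _
  show _ ↔ ((idx tab v 0 = 4 * i + j ∨ idx tab v 1 = 4 * i + j) ∨
    (idx tab v 2 = 4 * i + j ∨ idx tab v 3 = 4 * i + j)) ∨ (idx tab v 4 = 4 * i + j ∨ idx tab v 5 = 4 * i + j)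
  generalize hf : idx tab v = f at *
  interval_cases i
  · show f 0 = 4 * 0 + j ∨ f 1 = 4 * 0 + j ↔ _
    omega
  · show f 2 = 4 * 1 + j ∨ f 3 = 4 * 1 + j ↔ _
    omega
  · show f 4 = 4 * 2 + j ∨ f 5 = 4 * 2 + j ↔ _
    omega

theorem Ce.PP_eq_zero_iff (v : Fin 124) (i : Fin 3) (j : Fin 4) :
    PP v i j = 0 ↔ (pm tab v).testBit (4 * (i : ℕ) + (j : ℕ)) = false := by
  have h := PP_pos_iff v i j
  have h0 := PP_nonneg v i j
  constructor
  · intro h1
    by_contra h2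
    rw [Bool.not_eq_false] at h2
    have := h.mpr h2
    rw [h1] at this
    exact lt_irrefl _ this
  · intro h1
    by_contra h2
    have := h.mp (lt_of_le_of_ne h0 (Ne.symm h2))
    rw [h1] at this
    exact Bool.false_ne_true this

/-- a vertex lies in the closed cell `o` exactly if the masks are disjoint -/
theorem Ce.cell_iff (o : Fin 3 → Fin 4) (v : Fin 124) :
    (∀ i, PP v i (o i) = 0) ↔ Nat.land (pm tab v) (obits (cnum o)) = 0 := by
  have ho : obits (cnum o) = 2 ^ (o 0 : ℕ) + 2 ^ (4 + (o 1 : ℕ)) + 2 ^ (8 + (o 2 : ℕ)) := by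
    have key : ∀ a b c : Fin 4, obits (16 * (a : ℕ) + 4 * (b : ℕ) + (c : ℕ)) =
      2 ^ (a : ℕ) + 2 ^ (4 + (b : ℕ)) + 2 ^ (8 + (c : ℕ)) := by decide
    exact key (o 0) (o 1) (o 2)
  have hb : ∀ a b c : Fin 4, ∀ t : ℕ, t < 12 → (2 ^ (a : ℕ) + 2 ^ (4 + (b : ℕ)) + 2 ^ (8 + (c : ℕ))).testBit t =
      (decide (t = (a : ℕ)) || decide (t = 4 + (b : ℕ)) || decide (t = 8 + (c : ℕ))) := by decide +kernel
  have hlt : ∀ a b c : Fin 4, 2 ^ (a : ℕ) + 2 ^ (4 + (b : ℕ)) + 2 ^ (8 + (c : ℕ)) < 2 ^ 12 := by decide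
  rw [ho]
  have hz : Nat.land (pm tab v) (2 ^ (o 0 : ℕ) + 2 ^ (4 + (o 1 : ℕ)) + 2 ^ (8 + (o 2 : ℕ))) = 0 ↔
      ∀ t < 12, ((pm tab v).testBit t && (2 ^ (o 0 : ℕ) + 2 ^ (4 + (o 1 : ℕ)) + 2 ^ (8 + (o 2 : ℕ))).testBit t) = false := by
    show (pm tab v) &&& (2 ^ (o 0 : ℕ) + 2 ^ (4 + (o 1 : ℕ)) + 2 ^ (8 + (o 2 : ℕ))) = 0 ↔ _
    constructor
    · intro h t _
      rw [← Nat.testBit_and, h, Nat.zero_testBit]
    · intro h
      apply Nat.eq_of_testBit_eq
      intro t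
      rw [Nat.testBit_and, Nat.zero_testBit]
      by_cases ht : t < 12
      · exact h t ht
      · rw [Nat.testBit_lt_two_pow (lt_of_lt_of_le (hlt (o 0) (o 1) (o 2))
          (Nat.pow_le_pow_right (by norm_num) (not_lt.mp ht))), Bool.and_false]
  rw [hz]
  constructor
  · intro h t ht
    rw [hb _ _ _ t ht]
    have h0 := (PP_eq_zero_iff v 0 (o 0)).mp (h 0)
    have h1 := (PP_eq_zero_iff v 1 (o 1)).mp (h 1)
    have h2 := (PP_eq_zero_iff v 2 (o 2)).mp (h 2)
    by_cases e0 : t = (o 0 : ℕ)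
    · subst e0
      have : (pm tab v).testBit (o 0 : ℕ) = false := by simpa using h0
      rw [this, Bool.false_and]
    · by_cases e1 : t = 4 + (o 1 : ℕ)
      · subst e1
        have : (pm tab v).testBit (4 + (o 1 : ℕ)) = false := by simpa using h1
        rw [this, Bool.false_and]
      · by_cases e2 : t = 8 + (o 2 : ℕ)
        · subst e2
          have : (pm tab v).testBit (8 + (o 2 : ℕ)) = false := by simpa using h2
          rw [this, Bool.false_and]
        · simp [e0, e1, e2]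
  · intro h i
    rw [PP_eq_zero_iff]
    have hi : 4 * (i : ℕ) + (o i : ℕ) < 12 := by have := i.2; have := (o i).2; omega
    have := h _ hi
    rw [hb _ _ _ _ hi] at this
    have h2 : (decide (4 * (i : ℕ) + (o i : ℕ) = (o 0 : ℕ)) || decide (4 * (i : ℕ) + (o i : ℕ) = 4 + (o 1 : ℕ)) ||
        decide (4 * (i : ℕ) + (o i : ℕ) = 8 + (o 2 : ℕ))) = true := by
      fin_cases i <;> simp
    rw [h2, Bool.and_true] at this
    exact this

end Pool.Agent.helper73.TC
end
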